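import Mathlib
import Pool.Agent.TH115.GD.Defs
import Pool.Agent.X243.CD.FullHold
import Pool.Agent.X243.CD.RkTwoBase
import Pool.Agent.X243.CD.Pole

/-!
# The Tate conjecture and the Mordell-Weil group for the pullbacks with pure Newton polygons of the elliptic
# surfaces with full level two and complete descent

Let `k` be a field with `2 ≠ 0` and `E₀ : y² = x (x - a) (x - b)` an elliptic curve over `K₀ = k(s)` with the
following properties (`Base`, `Complete`): `a` and `b` are coprime polynomials, all roots of
`a b (a - b)` are in `k`; the maximum of the degrees of `a` and `b` is odd, or two of `a`, `b`, `a - b`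
have a root of odd multiplicity; and the first descent over `k(s)` is complete: for all monic squarefree
divisors `A`, `B`, `D` of `a`, `b`, `a - b` which satisfy the parity condition at `s = ∞` (`InfCond`)
there is a point `P` in `E₀(k(s))` with `x(P) = A B` and `x(P) - a = A D` up to constants of `k` and
squares of `k(s)`.

Let `L` be an extension field of `k`, for example a number field, `g` a polynomial over `L` in `t` of odd
degree `n`, `n ≠ 0` in `L`, and `E : y² = x (x - a(g(t))) (x - b(g(t)))` the pullback of `E₀` by
`s = g(t)` over `L(t)`. Its elliptic surface over the projective line is geometrically simply connected,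
and the geometric genus grows with `n`.

Theorem. (1) Assume that for every root `ξ` of `a b (a - b)` there is a nonarchimedean absolute value `w`
of `L` such that the Newton polygon of `g - ξ` at `w` is a segment without interior lattice points
(`Pure`; for example `g - ξ` is an Eisenstein polynomial for a prime of `L`). Then

(i) the Tate conjecture for divisors at 2 holds for the elliptic surface of `E` over `L`;

(ii) the first descent on `E` over `L(t)` is complete;

(iii) if two of `a`, `b`, `a - b` have a root of odd multiplicity (`TwoOddFactors`), then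
`E(L(t)) = 2 E(L(t)) + E₀(k(s))`, where `E₀(k(s))` is embedded by `s = g(t)` (every point of `E` over
`L(t)` is `2 Q + P₁` with a point `P₁` with coordinates in `k(s)`; so the rank of `E(L(t))` for a number
field `L` is the rank of `E₀(k(s))`);

(iv) if moreover (`BaseOdd`) the maximum of the degrees of `a` and `b` is odd, then every class of
2-power order in `H¹(L(t), E)` which is trivial over the completions of `L(t)` at all finite places is
zero.

(2) Let `O` be a Dedekind domain with the field of fractions `L` (for example the ring of integers of a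
number field), `V` a maximal ideal, `g` a polynomial over `L` such that all coefficients except the constant
one are integral at `V`, the leading one is a unit at `V` and the constant one has a pole at `V` of an order
`e > 0` prime to the degree (`PoleAt`), and `ξ` in `L` integral at `V`. Then the Newton polygon of `g - ξ`
at `V` is a segment without interior lattice points.

So the conclusions of (1) hold for ALL such `g` of odd degree `n ≠ 0` in `L` and all `E₀` for which the roots
`ξ` are integral at `V`. For example, for a curve `E₀` over `ℚ(s)` and a prime `p` which does not divide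
the denominators of the roots `ξ` they hold for ALL odd `n`, ALL polynomials `h` of degree less than `n` with
coefficients integral at `p` and ALL number fields `L` in which `p` has a prime divisor with a
ramification index prime to `n`, for the pullback by `s = t ^ n + h(t) + 1 / p`.

(3) The following curves `E₀` have the properties: the Legendre curve `y² = x (x - s) (x - (s - 1))`;
the curves `y² = x (x - (c - s)) (x - (c - e s))` with `c e = m²`, `c ≠ 0`, `e ≠ 0, 1`, with the point
`(c, m s)`; the curves `y² = x (x - (β² s² - 1)) (x - (β² - 1) s²)` with `β ≠ 0, 1, -1` (rational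
elliptic surfaces with fibres of type `I₄` and four times `I₂`, of rank one); the curves
`y² = x (x - ((α s + β)² - s²)) (x - ((α s + β)² - 1))` with `α ≠ 0, 1, -1`, `β ≠ 0` and
`((α + β)² - 1) ((α - β)² - 1)` a nonzero square (rational elliptic surfaces with six fibres `I₂`, of
rank two). All have the property of (iii), the first two also that of (iv).
-/

namespace Pool.Agent.Results.MP_1bad5e_ag.NewtonPolygonFullLevel

open Polynomial Pool.Agent.TH115.GD Pool.Agent.X243.Gen Pool.Agent.X243.CD
open IsDedekindDomain
open scoped Classical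

/-- Pullbacks with pure Newton polygons, for the curves over `K₀ = k(s)` and the field `L`. -/
def PurePullbacks (k K₀ L : Type) [Field k] [Field K₀] [Algebra k[X] K₀] [Field L]
    [Algebra k L] : Prop :=
  ∀ (L' K F : Type) [Field L'] [Algebra L L'] [Field K] [Algebra L[X] K]
    [IsFractionRing L[X] K] [Field F] [Algebra L'[X] F] [IsFractionRing L'[X] F] [Algebra K F],
    IsTower L L' K F → ∀ g : L[X], Odd g.natDegree → (g.natDegree : L) ≠ 0 → ∀ a b : k[X],
      Base K₀ a b → (∀ ξ, (a * b * (a - b)).IsRoot ξ →
        ∃ w : AbsoluteValue L ℝ, Pure w (g - C (algebraMap k L ξ))) → HoldsF K₀ L' K F a b g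

/-- The first two families of examples. -/
def Example {k : Type} [Field k] (a b : k[X]) : Prop :=
  (a = X ∧ b = X - 1) ∨
  (∃ c e m : k, c ≠ 0 ∧ e ≠ 0 ∧ e ≠ 1 ∧ c * e = m ^ 2 ∧ a = C c - X ∧ b = C c - C e * X)

/-- The examples of even degree. -/
def ExampleEven {k : Type} [Field k] (a b : k[X]) : Prop :=
  (∃ β : k, β ≠ 0 ∧ β ≠ 1 ∧ β ≠ -1 ∧ a = C (β ^ 2) * X ^ 2 - 1 ∧ b = C (β ^ 2 - 1) * X ^ 2) ∨
  (∃ α β μ : k, α ≠ 0 ∧ α ≠ 1 ∧ α ≠ -1 ∧ β ≠ 0 ∧ μ ≠ 0 ∧
    ((α + β) ^ 2 - 1) * ((α - β) ^ 2 - 1) = μ ^ 2 ∧
    a = (C α * X + C β) ^ 2 - X ^ 2 ∧ b = (C α * X + C β) ^ 2 - 1)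

theorem exampleEven {k K₀ : Type} [Field k] [Field K₀] [Algebra k[X] K₀] [IsFractionRing k[X] K₀]
    (h2 : (2 : k) ≠ 0) {a b : k[X]} (h : ExampleEven a b) : Base K₀ a b ∧ TwoOddFactors a b := by
  rcases h with ⟨β, hβ, hβ1, hβ2, rfl, rfl⟩ | ⟨α, β, μ, hα, hα1, hα2, hβ, hμ, hsq, rfl, rfl⟩
  · exact two5 h2 hβ hβ1 hβ2
  · exact ⟨(rk2_base h2 hα hα1 hα2 hβ hμ hsq).1, (rk2_base (K := K₀) h2 hα hα1 hα2 hβ hμ hsq).2.1⟩

theorem result :
    (∀ (k K₀ L : Type) [Field k] [Field K₀] [Algebra k[X] K₀] [IsFractionRing k[X] K₀] [Field L]
      [Algebra k L], (2 : k) ≠ 0 → PurePullbacks k K₀ L) ∧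
    (∀ (O L : Type) [CommRing O] [IsDedekindDomain O] [Field L] [Algebra O L]
      [IsFractionRing O L] (V : HeightOneSpectrum O) (e : ℤ) (g : L[X]) (ξ : L), PoleAt V e g →
      V.valuation L ξ ≤ 1 → ∃ w : AbsoluteValue L ℝ, Pure w (g - C ξ)) ∧
    (∀ (k K₀ : Type) [Field k] [Field K₀] [Algebra k[X] K₀] [IsFractionRing k[X] K₀],
      (2 : k) ≠ 0 → (∀ a b : k[X], Example a b → BaseOdd K₀ a b) ∧
        ∀ a b : k[X], ExampleEven a b → Base K₀ a b ∧ TwoOddFactors a b) := by
  refine ⟨?_, ?_, ?_⟩
  · intro k K₀ L _ _ _ _ _ _ h2 L' K F _ _ _ _ _ _ _ _ _ hT g hn hn0 a b hB hw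
    exact newton_holdF hT h2 hB hn hn0 hw
  · intro O L _ _ _ _ _ V e g ξ hg hξ
    exact (hg.sub_C hξ).pure
  · intro k K₀ _ _ _ _ h2
    refine ⟨?_, fun a b h => exampleEven h2 h⟩
    rintro a b (⟨rfl, rfl⟩ | ⟨c, e, m, hc, he, he1, hm, rfl, rfl⟩)
    · exact baseOdd1 h2
    · exact baseOdd3 h2 hc he he1 hm

end Pool.Agent.Results.MP_1bad5e_ag.NewtonPolygonFullLevel
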