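import Mathlib
import Pool.Agent.TH115.GD.Defs
import Pool.Agent.TH115.ID.Defs
import Pool.Agent.X243.Sol.Main3

/-!
# The Tate conjecture at 2 over all solvable and all regular extensions for 100% of a Noether-Lefschetz
# locus of elliptic surfaces

Let `k` be a number field and `n ≥ 3`. For polynomials `p`, `q` of degree at most `2 n` and `w` of degree
at most `n` over `k` let `X` be the elliptic surface over the projective line with the generic fibre

`E : y² = x (x² + (w² - p - q) x + p q)`.

It has the section `(0, 0)` of order two and the section `(p, p w)`, and (in general) `p_g = n - 1`; it is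
geometrically simply connected. These surfaces are a Noether-Lefschetz locus, of codimension
`n - 1 = p_g`, in the family of all elliptic surfaces `y² = x (x² + a x + b)`, `deg a ≤ 2 n`,
`deg b ≤ 4 n`, with a section of order two. Put `d = (w² - p - q)² - 4 p q`.

Call `(p, q, w)` good if `p`, `q`, `d` are irreducible over `k` of degrees `2 n`, `2 n`, `4 n`, `p` and `q` are
coprime, and for EVERY extension field `L` of `k` (of finite or infinite degree, algebraic or not, for
instance finitely generated) with a separable closure `L'` the following holds.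

(A) If the elements of `L` which are algebraic over `k` lie in a normal extension `M` of `k` in `L'`, such that
none of `p`, `q`, `d` splits into linear factors over `M`, then `E(L(t))` has a point of infinite order and the
Tate conjecture for divisors at the prime 2 holds for the surface over `L`.

(B) The same holds if the elements of `L` which are algebraic over `k` can be expressed by radicals over
`k` (that is, lie in the smallest subfield of `L'` which contains `k` and is closed under taking roots).

For example `L` may be any finite extension of `k` with a solvable Galois closure; the infinite extension of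
all numbers which can be expressed by radicals over `k`, and each subfield; any extension in which `k` is
algebraically closed, like the function field of a geometrically integral variety over `k`; or (by (A))
any finite extension of `k` whose Galois closure contains none of the splitting fields of `p`, `q`, `d`.

Theorem. Let `n ≥ 3`.

(1) (Ordering by height.) 100% of the triples `(p, q, w)` of integral polynomials of degrees at most
`2 n`, `2 n`, `n` are good: the proportion of the good triples among the triples with all coefficients in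
`[-B, B]` tends to `1` as `B` tends to infinity. The exceptional set does not depend on `L`.

(2) (Congruences.) Let `k₀` be a subfield of `k`. For every `η > 0` there is an ideal `M ≠ 0` of the ring of
integers `O` of `k₀` and a set of residue classes modulo `M` of triples `(p, q, w)`, with proportion at
least `1 - η` among all residue classes, such that EVERY triple over `O` in one of these residue classes
is good (over `k`).

`TateAtTwo` is the statement about the Galois-invariant classes in the 2-adic Selmer group; as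
`Br(X ⊗ L') = Ш(E / L'(t))` (Grothendieck), it is the surjectivity of `c_X` for `ℓ = 2` and `X` over `L`.

The proof: (i) Frobenius elements at suitable primes show that the Galois groups over `k` of `p`, `q` and
`d` are the full symmetric groups; so over `M` they contain the alternating groups, and over `L` the
polynomials stay irreducible, and `p`, `d`, and so `p q`, are not constants times norms from quadratic
extensions of `L`; (ii) for such `p`, `q`, `d` a descent by the isogenies of degree two, with the section
`(p, p w)`, shows that the conjecture holds; (iii) a positive proportion of the residue classes modulo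
each prime has each of the properties which are needed (for `d` this uses that for a positive
proportion of the polynomials `d` of degree `4 n` there are many `w` such that `d` is a square modulo
`w²`), and a sieve.
-/

namespace Pool.Agent.Results.MP_1bad5e_ag.RankOneAllFields

open Polynomial Pool.Agent.TH115.GD NumberField
open Pool.Agent.X243.Tate (Ix Zset box)
open Pool.Agent.X243.Sol (He7)
open scoped Classical

/-- The polynomial over `k` with the coefficients `c`. -/
noncomputable def poly {R : Type} [CommRing R] (k : Type) [Field k] [Algebra R k] {r : ℕ}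
    (c : Fin r → R) : k[X] :=
  ∑ j : Fin r, C (algebraMap R k (c j)) * X ^ (j : ℕ)

/-- The triples of coefficient vectors of polynomials of degrees at most `2 n`, `2 n`, `n`. -/
abbrev Triples (n : ℕ) (R : Type) : Type :=
  (Fin (2 * n + 1) → R) × (Fin (2 * n + 1) → R) × (Fin (n + 1) → R)

/-- The Tate conjecture at 2 for `y² = x (x² + (w² - p - q) x + p q)` over `L` (`L'` is a separable closure
of `L`, `K = L(t)`, `F = L'(t)`), for the polynomials `p`, `q`, `w` over the subfield `k` of `L`; moreover
this curve has a point of infinite order over `K`. -/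
def TateRankOver {k : Type} [Field k] (p q w : k[X]) (L L' K F : Type) [Field L] [Field L']
    [Algebra L L'] [Field K] [Algebra L[X] K] [Field F] [Algebra L'[X] F] [IsFractionRing L'[X] F]
    [Algebra K F] [Algebra k L] : Prop :=
  TateAtTwo (F := F) L' (crvT (algebraMap L[X] K ((w ^ 2 - p - q).map (algebraMap k L)))
      (algebraMap L[X] K ((p * q).map (algebraMap k L)))) ∧
    ∃ P : Pt (crvT (algebraMap L[X] K ((w ^ 2 - p - q).map (algebraMap k L)))
      (algebraMap L[X] K ((p * q).map (algebraMap k L)))) K, ∀ m : ℕ, 0 < m → m • P ≠ 0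

/-- The good triples. -/
structure Good (k : Type) [Field k] (n : ℕ) (p q w : k[X]) : Prop where
  irrP : Irreducible p ∧ p.natDegree = 2 * n
  irrQ : Irreducible q ∧ q.natDegree = 2 * n
  irrD : Irreducible ((w ^ 2 - p - q) ^ 2 - 4 * (p * q)) ∧
    ((w ^ 2 - p - q) ^ 2 - 4 * (p * q)).natDegree = 4 * n
  cop : IsCoprime p q
  tate : ∀ (L L' K F : Type) [Field L] [Field L'] [Algebra L L'] [Field K] [Algebra L[X] K]
    [Field F] [Algebra L'[X] F] [IsFractionRing L'[X] F] [Algebra K F]
    [Algebra k L] [Algebra k L'] [IsScalarTower k L L'], IsTower L L' K F →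
      ∀ M : IntermediateField k L', Normal k M →
        (∀ x : L, IsAlgebraic k x → algebraMap L L' x ∈ M) →
        ¬ (p.map (algebraMap k M)).Splits → ¬ (q.map (algebraMap k M)).Splits →
        ¬ (((w ^ 2 - p - q) ^ 2 - 4 * (p * q)).map (algebraMap k M)).Splits →
        TateRankOver p q w L L' K F
  rad : ∀ (L L' K F : Type) [Field L] [Field L'] [Algebra L L'] [Field K] [Algebra L[X] K]
    [Field F] [Algebra L'[X] F] [IsFractionRing L'[X] F] [Algebra K F]
    [Algebra k L] [Algebra k L'] [IsScalarTower k L L'], IsTower L L' K F →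
      (∀ x : L, IsAlgebraic k x → algebraMap L L' x ∈ solvableByRad k L') →
        TateRankOver p q w L L' K F

/-- The vector of all the coefficients. -/
def toIx {n : ℕ} {R : Type} (z : Triples n R) : Ix n → R := Sum.elim (Sum.elim z.1 z.2.1) z.2.2

theorem toIx_inj {n : ℕ} {R : Type} : Function.Injective (toIx (n := n) (R := R)) := by
  rintro ⟨a, b, c⟩ ⟨a', b', c'⟩ h
  refine Prod.ext (funext fun j => congrFun h (Sum.inl (Sum.inl j))) (Prod.ext
    (funext fun j => congrFun h (Sum.inl (Sum.inr j))) (funext fun j => congrFun h (Sum.inr j)))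

theorem toIx_surj {n : ℕ} {R : Type} (y : Ix n → R) : ∃ z : Triples n R, toIx z = y := by
  refine ⟨(fun j => y (Sum.inl (Sum.inl j)), fun j => y (Sum.inl (Sum.inr j)),
    fun j => y (Sum.inr j)), ?_⟩
  funext j
  rcases j with (j | j) | j <;> rfl

theorem good_of {A k : Type} [Field A] [NumberField A] [Field k] [NumberField k]
    [Algebra A k] {n B : ℕ} (hn : 3 ≤ n) {z : Triples n (𝓞 A)}
    (h : ∀ s : Option (Fin 3 × Fin 3), ∃ p ∈ Zset A k B,
      (fun j => Ideal.Quotient.mk p.asIdeal (toIx z j)) ∈ He7 n s (𝓞 A ⧸ p.asIdeal)) :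
    Good k n (poly k z.1) (poly k z.2.1) (poly k z.2.2) := by
  obtain ⟨⟨h1, f1⟩, ⟨h2, f2⟩, ⟨h3, f3⟩, h4⟩ := Pool.Agent.X243.Sol.ro_good (by omega : 2 ≤ n) h
    (poly k z.1) (poly k z.2.1) (poly k z.2.2)
    (Pool.Agent.X243.Tate.bF_map (algebraMap (𝓞 A) k) z.1).symm
    (Pool.Agent.X243.Tate.bF_map (algebraMap (𝓞 A) k) z.2.1).symm
    (Pool.Agent.X243.Tate.bF_map (algebraMap (𝓞 A) k) z.2.2).symm
  refine ⟨h1, h2, h3, h4, ?_, ?_⟩
  · intro L L' K F _ _ _ _ _ _ _ _ _ _ _ _ hT M hMn hM a1 a2 a3
    exact Pool.Agent.X243.Sol.ro_ext hn h1 h2 h3 f1 f2 f3 h4 hT M hMn hM a1 a2 a3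
  · intro L L' K F _ _ _ _ _ _ _ _ _ _ _ _ hT hM
    exact Pool.Agent.X243.Sol.ro_rad hn h1 h2 h3 f1 f2 f3 h4 hT hM

theorem result :
    (∀ (k : Type) [Field k] [NumberField k] (n : ℕ), 3 ≤ n →
        Filter.Tendsto (fun B : ℕ =>
          (({z : Triples n ℤ |
            ((∀ j, |z.1 j| ≤ B) ∧ (∀ j, |z.2.1 j| ≤ B) ∧ (∀ j, |z.2.2 j| ≤ B)) ∧
              Good k n (poly k z.1) (poly k z.2.1) (poly k z.2.2)}.ncard : ℕ) : ℝ) /
          (({z : Triples n ℤ |
            (∀ j, |z.1 j| ≤ B) ∧ (∀ j, |z.2.1 j| ≤ B) ∧ (∀ j, |z.2.2 j| ≤ B)}.ncard : ℕ) : ℝ))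
          Filter.atTop (nhds 1)) ∧
    (∀ (k₀ k : Type) [Field k₀] [NumberField k₀] [Field k] [NumberField k] [Algebra k₀ k]
      (n : ℕ), 3 ≤ n → ∀ η : ℝ, 0 < η →
        ∃ M : Ideal (𝓞 k₀), M ≠ ⊥ ∧
          (1 - η) * (Nat.card (Triples n (𝓞 k₀ ⧸ M)) : ℝ) ≤
          (({z : Triples n (𝓞 k₀ ⧸ M) | ∀ y : Triples n (𝓞 k₀),
              (∀ j, Ideal.Quotient.mk M (y.1 j) = z.1 j) →
              (∀ j, Ideal.Quotient.mk M (y.2.1 j) = z.2.1 j) →
              (∀ j, Ideal.Quotient.mk M (y.2.2 j) = z.2.2 j) →
                Good k n (poly k y.1) (poly k y.2.1) (poly k y.2.2)}.ncard : ℕ) : ℝ)) := by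
  constructor
  · intro k _ _ n hn
    have key := Pool.Agent.X243.Tate.box_dens (ι := Ix n)
      {y | ∃ z : Triples n ℤ, toIx z = y ∧
        Good k n (poly k z.1) (poly k z.2.1) (poly k z.2.2)} (by
        intro η hη
        obtain ⟨M, hM, hd⟩ := Pool.Agent.X243.Sol.dens_ro ℚ k (by omega : 2 ≤ n) η hη
        have hfin : Finite (𝓞 ℚ ⧸ M) := Ideal.finiteQuotientOfFreeOfNeBot _ hM
        obtain ⟨T, hTdef⟩ : ∃ T : Set (Ix n → 𝓞 ℚ ⧸ M),
            T = {x : Ix n → 𝓞 ℚ ⧸ M | ∀ s : Option (Fin 3 × Fin 3), ∃ p ∈ Zset ℚ k (8 * n + 2),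
              ∀ y : Ix n → 𝓞 ℚ, (∀ j, Ideal.Quotient.mk M (y j) = x j) →
                (fun j => Ideal.Quotient.mk p.asIdeal (y j)) ∈ He7 n s (𝓞 ℚ ⧸ p.asIdeal)} :=
          ⟨_, rfl⟩
        rw [← hTdef] at hd
        refine ⟨𝓞 ℚ ⧸ M, inferInstance, hfin, ?_, Tᶜ, ?_, ?_⟩
        rotate_left 1
        · have h1 := Set.ncard_add_ncard_compl T
          rw [Nat.card_fun, Nat.card_eq_fintype_card (α := Ix n)] at h1
          have h2 := congrArg (Nat.cast (R := ℝ)) h1
          rw [Nat.cast_add, Nat.cast_pow] at h2
          linarith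
        · intro y hy hgood
          apply hy
          rw [hTdef] at hgood
          obtain ⟨z, rfl⟩ := toIx_surj y
          refine ⟨z, rfl, ?_⟩
          have e1 : ∀ t : ℤ, algebraMap (𝓞 ℚ) k (t : 𝓞 ℚ) = algebraMap ℤ k t := by
            intro t
            rw [map_intCast, eq_intCast]
          have h3 := good_of (A := ℚ) (k := k) hn
            (z := ((fun j => ((z.1 j : ℤ) : 𝓞 ℚ)), (fun j => ((z.2.1 j : ℤ) : 𝓞 ℚ)),
              (fun j => ((z.2.2 j : ℤ) : 𝓞 ℚ))))
            (B := 8 * n + 2) (fun s => by
              obtain ⟨p, hp, hp'⟩ := hgood s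
              refine ⟨p, hp, hp' _ ?_⟩
              rintro ((j | j) | j)
              · exact map_intCast _ _
              · exact map_intCast _ _
              · exact map_intCast _ _)
          have e2 : ∀ {r : ℕ} (c : Fin r → ℤ),
              (poly k (fun j => ((c j : ℤ) : 𝓞 ℚ)) : k[X]) = poly k c := by
            intro r c
            refine Finset.sum_congr rfl fun j _ => ?_
            rw [e1]
          simp only [e2] at h3
          exact h3
        · intro z
          obtain ⟨x, rfl⟩ := Ideal.Quotient.mk_surjective z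
          refine ⟨Rat.ringOfIntegersEquiv x, ?_⟩
          have h4 : ((Rat.ringOfIntegersEquiv x : ℤ) : 𝓞 ℚ) = x := by
            apply Rat.ringOfIntegersEquiv.injective
            rw [map_intCast, Int.cast_id]
          rw [eq_intCast, ← map_intCast (Ideal.Quotient.mk M), h4])
    have hsplit : ∀ B : ℕ, ∀ z : Triples n ℤ, toIx z ∈ box (Ix n) B ↔
        (∀ j, |z.1 j| ≤ B) ∧ (∀ j, |z.2.1 j| ≤ B) ∧ (∀ j, |z.2.2 j| ≤ B) := by
      intro B z
      constructor
      · intro h
        exact ⟨fun j => h (Sum.inl (Sum.inl j)), fun j => h (Sum.inl (Sum.inr j)),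
          fun j => h (Sum.inr j)⟩
      · rintro ⟨h1, h2, h3⟩ ((j | j) | j)
        · exact h1 j
        · exact h2 j
        · exact h3 j
    refine key.congr fun B => ?_
    congr 2
    · rw [← Set.ncard_image_of_injective _ toIx_inj]
      congr 1
      ext y
      constructor
      · rintro ⟨h1, z, rfl, h2⟩
        exact ⟨z, ⟨(hsplit B z).1 h1, h2⟩, rfl⟩
      · rintro ⟨z, ⟨h1, h3⟩, rfl⟩
        exact ⟨(hsplit B z).2 h1, z, rfl, h3⟩
    · rw [← Set.ncard_image_of_injective _ toIx_inj]
      congr 1
      ext y
      constructor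
      · intro h1
        obtain ⟨z, rfl⟩ := toIx_surj y
        exact ⟨z, (hsplit B z).1 h1, rfl⟩
      · rintro ⟨z, h1, rfl⟩
        exact (hsplit B z).2 h1
  · intro k₀ k _ _ _ _ _ n hn η hη
    obtain ⟨M, hM, hd⟩ := Pool.Agent.X243.Sol.dens_ro k₀ k (by omega : 2 ≤ n) η hη
    have hfin : Finite (𝓞 k₀ ⧸ M) := Ideal.finiteQuotientOfFreeOfNeBot _ hM
    refine ⟨M, hM, ?_⟩
    have hc : (Nat.card (Triples n (𝓞 k₀ ⧸ M)) : ℝ) =
        (Nat.card (𝓞 k₀ ⧸ M) : ℝ) ^ (Fintype.card (Ix n)) := by
      rw [Nat.card_congr (Equiv.ofBijective _ ⟨toIx_inj (n := n) (R := 𝓞 k₀ ⧸ M), toIx_surj⟩),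
        Nat.card_fun, Nat.card_eq_fintype_card (α := Ix n)]
      push_cast
      rfl
    rw [hc]
    refine hd.trans ?_
    rw [← Set.ncard_image_of_injective _ (toIx_inj (n := n) (R := 𝓞 k₀ ⧸ M))]
    have h2 : ∀ S T : Set (Ix n → 𝓞 k₀ ⧸ M), S ⊆ T →
        ((S.ncard : ℕ) : ℝ) ≤ ((T.ncard : ℕ) : ℝ) := fun S T h => by
      exact_mod_cast Set.ncard_le_ncard h (Set.toFinite _)
    apply h2
    intro x hx
    obtain ⟨z, rfl⟩ := toIx_surj x
    refine ⟨z, ?_, rfl⟩
    intro y h1 h3 h4
    refine good_of (A := k₀) (k := k) hn (z := y) (B := 8 * n + 2) (fun s => ?_)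
    obtain ⟨p, hp, hp'⟩ := hx s
    refine ⟨p, hp, hp' _ ?_⟩
    rintro ((j | j) | j)
    · exact h1 j
    · exact h3 j
    · exact h4 j

end Pool.Agent.Results.MP_1bad5e_ag.RankOneAllFields
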