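import Mathlib
import Pool.Agent.TH115.GD.Defs
import Pool.Agent.TH115.ID.Defs
import Pool.Agent.X243.CD.Pole

/-!
# Elliptic surfaces of rank one with pure Newton polygons: the Tate conjecture at 2, the Mordell-Weil group
# and the Tate-Shafarevich group

Let `L` be a field with `2 ≠ 0`, for example a number field. For polynomials `p`, `q`, `w` over `L` in the
variable `t` let `X` be the elliptic surface over the projective line with the generic fibre

`E : y² = x (x² + (w² - p - q) x + p q)`

over `K = L(t)`. It has the section `(0, 0)` of order two and the section `(p, p w)`. In the family of all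
elliptic surfaces with a section of order two these surfaces form a Noether-Lefschetz locus. Put
`d = (w² - p - q)² - 4 p q` (`disc p q w`). The following properties of `E` (`Holds`) are considered:

(i) the Tate conjecture for divisors at the prime 2 holds for the surface over `L`;

(ii) `E(L(t))` contains a point of infinite order, and every point of `E(L(t))` is `2 Q + P₁` with one of
the four points `P₁ = 0, (0, 0), (p, p w), (q, q w)` (`Special`; `(q, q w)` is the sum of the other two,
up to signs). So if `E(L(t))` is finitely generated, then its rank is exactly one, and `(0, 0)` and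
`(p, p w)` generate a subgroup of odd index;

(iii) every class of 2-power order in `H¹(L(t), E)` which is trivial over the completions of `L(t)` at all
finite places is zero; so the Tate-Shafarevich group has no element of order two.

Theorem. (1) Assume that `p` and `q` are coprime, the degrees of `p` and `d` are odd, the degrees of `p`, `q`,
`d` are not zero in `L`, and that for each of `p`, `q`, `d` there is a nonarchimedean absolute value of `L` at
which the Newton polygon is a segment without interior lattice points (`Pure`; for example `p`, `q` and
`d` are Eisenstein polynomials for primes of `L`, which can be different). Then (i), (ii), (iii) hold.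

(2) Let `O` be a Dedekind domain with the field of fractions `L` (for example the ring of integers of a
number field), `V` a maximal ideal, and `p` a polynomial of odd degree `n`, `n ≠ 0` in `L`, such that all
coefficients except the constant one are integral at `V`, the leading one is a unit at `V` and the constant
one has a pole of order `m > 0` prime to `n` at `V` (`PoleAt`). Let `e` be ANY polynomial of degree less than
`n / 2` with coefficients integral at `V` and `ω ≠ 0` an element of `L` integral at `V`, `2 e + ω ≠ 0`. Then
(i), (ii), (iii) hold for `p`, `q = p + ω (2 e + ω)`, `w = ω`, that is, for the elliptic surface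

`y² = x (x² - 2 (p + ω e) x + p (p + 2 ω e + ω²))`

(here `d = - 4 ω² (p - e²)`) with the section `(p, p ω)`. The geometric genus is unbounded.

So over `ℚ` one can take, for a prime `ℓ`, any monic polynomial `p` of odd degree with coefficients integral
at `ℓ` except the constant one, which is `1 / ℓ`, any `e` with coefficients integral at `ℓ` and
`deg e < n / 2`, and any `ω ≠ 0` integral at `ℓ` with `2 e + ω ≠ 0`; and the same surfaces over every
number field in which `ℓ` has a prime divisor with a ramification index prime to `n`.

The proof: `p`, `q`, `d` are irreducible over `L`, and the descent via the isogenies of degree two for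
surfaces of this shape applies.
-/

namespace Pool.Agent.Results.MP_1bad5e_ag.RankOneNewtonPolygons

open Polynomial Pool.Agent.TH115.GD Pool.Agent.X243.CD Pool.Agent.W309
open IsDedekindDomain
open scoped Classical

/-- The polynomial `d`. -/
noncomputable def disc {L : Type} [Field L] (p q w : L[X]) : L[X] :=
  (w ^ 2 - p - q) ^ 2 - 4 * (p * q)

/-- The conclusions for `y² = x (x² + (w² - p - q) x + p q)` over `L` (`L'` is a separable closure of `L`,
`K = L(t)`, `F = L'(t)`). -/
def Holds {L : Type} [Field L] (p q w : L[X]) (L' K F : Type) [Field L']
    [Algebra L L'] [Field K] [Algebra L[X] K] [IsFractionRing L[X] K] [Field F] [Algebra L'[X] F]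
    [IsFractionRing L'[X] F] [Algebra K F] : Prop :=
  TateAtTwo (F := F) L' (crvT (algebraMap L[X] K (w ^ 2 - p - q)) (algebraMap L[X] K (p * q))) ∧
    (∃ P : Pt (crvT (algebraMap L[X] K (w ^ 2 - p - q)) (algebraMap L[X] K (p * q))) K,
      ∀ m : ℕ, 0 < m → m • P ≠ 0) ∧
    (∀ P0 : Pt (crvT (algebraMap L[X] K (w ^ 2 - p - q)) (algebraMap L[X] K (p * q))) K,
      ∃ Q P1 : Pt (crvT (algebraMap L[X] K (w ^ 2 - p - q)) (algebraMap L[X] K (p * q))) K,
        Special (algebraMap L[X] K p) (algebraMap L[X] K q) (algebraMap L[X] K w) P1 ∧
        P0 = Q + Q + P1) ∧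
    Sha.ShaTwoTrivial L[X]
      (crvT (algebraMap L[X] K (w ^ 2 - p - q)) (algebraMap L[X] K (p * q)))

theorem result :
    ∀ (L L' K F : Type) [Field L] [Field L'] [Algebra L L'] [Field K] [Algebra L[X] K]
      [IsFractionRing L[X] K] [Field F] [Algebra L'[X] F] [IsFractionRing L'[X] F] [Algebra K F],
      IsTower L L' K F → (2 : L) ≠ 0 →
      (∀ p q w : L[X], IsCoprime p q → Odd p.natDegree → Odd (disc p q w).natDegree →
        (∀ f : L[X], (f = p ∨ f = q ∨ f = disc p q w) →
          (f.natDegree : L) ≠ 0 ∧ ∃ v : AbsoluteValue L ℝ, Pure v f) →
        Holds p q w L' K F) ∧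
      (∀ (O : Type) [CommRing O] [IsDedekindDomain O] [Algebra O L] [IsFractionRing O L]
        (V : HeightOneSpectrum O) (m : ℤ) (p e : L[X]) (ω : L), PoleAt V m p →
        Odd p.natDegree → (p.natDegree : L) ≠ 0 → 2 * e.natDegree < p.natDegree →
        (∀ i : ℕ, V.valuation L (e.coeff i) ≤ 1) → V.valuation L ω ≤ 1 → ω ≠ 0 →
        2 * e + C ω ≠ 0 →
        Holds p (p + C ω * (2 * e + C ω)) (C ω) L' K F) := by
  intro L L' K F _ _ _ _ _ _ _ _ _ _ hT h2
  refine ⟨?_, ?_⟩
  · intro p q w hco op od h
    obtain ⟨np, v1, hv1⟩ := h p (Or.inl rfl)
    obtain ⟨nq, v2, hv2⟩ := h q (Or.inr (Or.inl rfl))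
    obtain ⟨nd, v3, hv3⟩ := h _ (Or.inr (Or.inr rfl))
    have pos : ∀ f : L[X], (f.natDegree : L) ≠ 0 → 0 < f.natDegree := by
      intro f hf
      rcases Nat.eq_zero_or_pos f.natDegree with h0 | h0
      · rw [h0, Nat.cast_zero] at hf
        exact absurd rfl hf
      · exact h0
    have ip := hv1.irreducible (pos _ np)
    have iq := hv2.irreducible (pos _ nq)
    have id := hv3.irreducible (pos _ nd)
    exact ro_odd hT h2 ip iq hco id (sep_of_cast ip np) (sep_of_cast iq nq)
      (sep_of_cast id nd) op od
  · intro O _ _ _ _ V m p e ω hp op hn0 he hi hω hω0 h0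
    obtain ⟨hco, ip, iq, id, sp, sq, sd, od⟩ := ro_family hT h2 hp op hn0 he hi hω hω0 h0
    exact ro_odd hT h2 ip iq hco id sp sq sd op od

end Pool.Agent.Results.MP_1bad5e_ag.RankOneNewtonPolygons
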