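import Mathlib
import Pool.Agent.TH115.GD.Defs
import Pool.Agent.TH115.GD.Rk2
import Pool.Agent.X243.Tate.Ex2

/-!
# The Tate conjecture at 2 for the generic pullbacks of the rational elliptic surfaces with six fibres `I₂`

Let `k` be a field of characteristic different from 2 (for example finitely generated over its
prime field), `k'` a separable closure, `K = k(t)`, `F = k'(t)`. Let `α`, `β` be nonzero constants
such that `((α + β)² - 1) ((α - β)² - 1)` is a nonzero square. The elliptic surface

`E₀ : y² = x (x - (α s + β)² + s²) (x - (α s + β)² + 1)`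

over the `s`-line is rational, with all points of order two and six fibres of type `I₂`, and its
Mordell-Weil group has rank two. Let `s = q / r` be a map of odd degree `n` such that the preimages of
the six places of bad reduction are irreducible over `k`: the polynomials `q`, `r` are coprime and,
with `p = α q + β r`,

`p + q`, `p - q`, `p + r`, `p - r`, `q + r`, `q - r`

are irreducible and separable of degree `n`. Let `X` be the pullback of the surface by this map,

`E : y² = x (x - (p² - q²)) (x - (p² - r²))`,

an elliptic surface over the projective line with `6 n` fibres of type `I₂` and geometric genus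
`n - 1`.

Theorem. (1) The Tate conjecture for divisors at the prime 2 holds for `X`: every class in
`V₂ Sel(E / F)` which is fixed by the Galois group of `k` comes from `E(K)`. (2) `E(K)` contains two
independent points. (3) For all odd `n` the conditions are satisfied over the rational numbers for
`α = 9/2`, `β = - 5/2`, `q = t ^ n + 4`, `r = 1`.

`TateAtTwo` is the statement that the Galois-invariant classes of the 2-adic Selmer group come from
points; as `Br(X ⊗ k') = Ш(E / F)` up to `p`-torsion (Grothendieck), it is the Tate conjecture for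
divisors at the prime 2 on `X`.

The classes of order two fixed by the Galois group are given by triples of divisors of `p² - q²`,
`p² - r²`, `q² - r²` over `k`. There are 16 triples with the right behaviour at infinity, and they
are the classes of the four points of order two, of the two sections with `x = (p + q) (p + r)` and
`x = (α + β - 1) / (α + β + 1) (p + q) (p + r)`, and of their sums.
-/

namespace Pool.Agent.Results.MP_1bad5e_ag.TateRankTwo

open Polynomial Pool.Agent.TH115.GD
open scoped Classical

/-- The polynomial `p = α q + β r`. -/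
noncomputable def pp {k : Type} [Field k] (α β : k) (q r : k[X]) : k[X] := C α * q + C β * r

/-- The discriminant of `E` is a constant times the square of the product of these polynomials. -/
def forms {k : Type} [Field k] (α β : k) (q r : k[X]) : Set k[X] :=
  {pp α β q r + q, pp α β q r - q, pp α β q r + r, pp α β q r - r, q + r, q - r}

/-- The curve `y² = x (x - (p² - q²)) (x - (p² - r²))`, `p = α q + β r`. -/
noncomputable def curve {k : Type} [Field k] (K : Type) [Field K] [Algebra k[X] K] (α β : k)
    (q r : k[X]) : WeierstrassCurve K :=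
  crv (algebraMap k[X] K (pp α β q r ^ 2 - q ^ 2)) (algebraMap k[X] K (pp α β q r ^ 2 - r ^ 2))

theorem result :
    (∀ (k k' K F : Type) [Field k] [Field k'] [Algebra k k'] [Field K] [Algebra k[X] K]
      [Field F] [Algebra k'[X] F] [IsFractionRing k'[X] F] [Algebra K F],
      IsTower k k' K F → (2 : k) ≠ 0 → ∀ α β μ : k, α ≠ 0 → β ≠ 0 → μ ≠ 0 →
        ((α + β) ^ 2 - 1) * ((α - β) ^ 2 - 1) = μ ^ 2 →
        ∀ (q r : k[X]) (n : ℕ), IsCoprime q r → Odd n →
          (∀ f ∈ forms α β q r, Irreducible f ∧ f.Separable ∧ f.natDegree = n) →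
          TateAtTwo (F := F) k' (curve K α β q r) ∧
            ∃ P : Fin 2 → Pt (curve K α β q r) K, LinearIndependent ℤ P) ∧
    (((9 / 2 + -5 / 2 : ℚ) ^ 2 - 1) * ((9 / 2 - -5 / 2 : ℚ) ^ 2 - 1) = 12 ^ 2 ∧
      ∀ n : ℕ, Odd n → IsCoprime (X ^ n + 4 : ℚ[X]) 1 ∧
        ∀ f ∈ forms (9 / 2 : ℚ) (-5 / 2) (X ^ n + 4) 1,
          Irreducible f ∧ f.Separable ∧ f.natDegree = n) := by
  refine ⟨?_, by norm_num, ?_⟩
  · intro k k' K F _ _ _ _ _ _ _ _ _ hT h2 α β μ hα hβ hμ hsq q r n hco hn hgood
    haveI := hT.fracK
    exact ⟨rank2 hT h2 hα hβ hμ hsq rfl hco hn hgood,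
      Pool.Agent.X243.Tate.indep2 h2 hα hβ hμ hsq rfl hco fun f hf => (hgood f hf).1⟩
  · intro n hn
    refine ⟨isCoprime_one_right, ?_⟩
    haveI : Fact (Nat.Prime 13) := ⟨by norm_num⟩
    haveI : Fact (Nat.Prime 23) := ⟨by norm_num⟩
    haveI : Fact (Nat.Prime 11) := ⟨by norm_num⟩
    haveI : Fact (Nat.Prime 29) := ⟨by norm_num⟩
    haveI : Fact (Nat.Prime 5) := ⟨by norm_num⟩
    haveI : Fact (Nat.Prime 3) := ⟨by norm_num⟩
    have h4 : (4 : ℚ[X]) = C 4 := rfl
    have h1 : (1 : ℚ[X]) = C 1 := rfl
    have key : ∀ (f : ℚ[X]) (c a : ℚ) (b d e : ℚ), f = C b * X ^ n + C d → b = c → d = -c * a →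
        f = C c * (X ^ n - C a) := by
      rintro f c a b d e rfl rfl rfl
      rw [mul_sub, ← C_mul, neg_mul, C_neg]
      ring
    intro f hf
    simp only [forms, pp, Set.mem_insert_iff, Set.mem_singleton_iff] at hf
    rcases hf with rfl | rfl | rfl | rfl | rfl | rfl
    · refine Pool.Agent.X243.Tate.binomial hn (ℓ := 13) (u := -3) (v := 11) (a := -39 / 11)
        (c := 11 / 2) (by norm_num) (by norm_num) (by norm_num) (by norm_num)
        (key _ _ _ (11 / 2) (39 / 2) 0 ?_ (by norm_num) (by norm_num))
      rw [show (11 / 2 : ℚ) = 9 / 2 + 1 by norm_num,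
        show (39 / 2 : ℚ) = 9 / 2 * 4 + -5 / 2 * 1 + 4 by norm_num, h4, h1]
      simp only [C_add, C_mul, map_one]
      ring
    · refine Pool.Agent.X243.Tate.binomial hn (ℓ := 23) (u := -1) (v := 7) (a := -23 / 7)
        (c := 7 / 2) (by norm_num) (by norm_num) (by norm_num) (by norm_num)
        (key _ _ _ (7 / 2) (23 / 2) 0 ?_ (by norm_num) (by norm_num))
      rw [show (7 / 2 : ℚ) = 9 / 2 - 1 by norm_num,
        show (23 / 2 : ℚ) = 9 / 2 * 4 + -5 / 2 * 1 - 4 by norm_num, h4, h1]
      simp only [C_add, C_sub, C_mul, map_one]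
      ring
    · refine Pool.Agent.X243.Tate.binomial hn (ℓ := 11) (u := -1) (v := 3) (a := -11 / 3)
        (c := 9 / 2) (by norm_num) (by norm_num) (by norm_num) (by norm_num)
        (key _ _ _ (9 / 2) (33 / 2) 0 ?_ (by norm_num) (by norm_num))
      rw [show (33 / 2 : ℚ) = 9 / 2 * 4 + -5 / 2 * 1 + 1 by norm_num, h4, h1]
      simp only [C_add, C_mul, map_one]
      ring
    · refine Pool.Agent.X243.Tate.binomial hn (ℓ := 29) (u := -1) (v := 9) (a := -29 / 9)
        (c := 9 / 2) (by norm_num) (by norm_num) (by norm_num) (by norm_num)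
        (key _ _ _ (9 / 2) (29 / 2) 0 ?_ (by norm_num) (by norm_num))
      rw [show (29 / 2 : ℚ) = 9 / 2 * 4 + -5 / 2 * 1 - 1 by norm_num, h4, h1]
      simp only [C_add, C_sub, C_mul, map_one]
      ring
    · refine Pool.Agent.X243.Tate.binomial hn (ℓ := 5) (u := -1) (v := 1) (a := -5)
        (c := 1) (by norm_num) (by norm_num) (by norm_num) (by norm_num)
        (key _ _ _ 1 5 0 ?_ (by norm_num) (by norm_num))
      rw [show (5 : ℚ) = 4 + 1 by norm_num, h4, h1]
      simp only [C_add, map_one]
      ring
    · refine Pool.Agent.X243.Tate.binomial hn (ℓ := 3) (u := -1) (v := 1) (a := -3)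
        (c := 1) (by norm_num) (by norm_num) (by norm_num) (by norm_num)
        (key _ _ _ 1 3 0 ?_ (by norm_num) (by norm_num))
      rw [show (3 : ℚ) = 4 - 1 by norm_num, h4, h1]
      simp only [C_sub, map_one]
      ring

end Pool.Agent.Results.MP_1bad5e_ag.TateRankTwo
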